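import Mathlib

/-!
# Geodetic graphs and potentials
-/

set_option autoImplicit false

namespace Pool.Agent.H129.Geod

/-- A graph is geodetic if it is connected and any two vertices are joined by exactly one
shortest path. -/
def Geodetic {V : Type*} (G : SimpleGraph V) : Prop :=
  G.Connected ∧ ∀ u v : V, ∃! p : G.Walk u v, p.IsPath ∧ p.length = G.dist u v

/-- `f` is the distance to `t`, and `par s` is the only neighbour of `s` which is closer to `t`. -/
structure IsPot {V : Type*} (G : SimpleGraph V) (t : V) (f : V → ℕ) (par : V → V) : Prop where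
  zero : f t = 0
  step : ∀ s, s ≠ t → G.Adj s (par s) ∧ f (par s) + 1 = f s
  le : ∀ s q, G.Adj s q → f s ≤ f q + 1
  uniq : ∀ s q, G.Adj s q → f s = f q + 1 → q = par s

/-- All vertices have potentials, with values at most `k`. -/
def HasPot {V : Type*} (k : ℕ) (G : SimpleGraph V) : Prop :=
  ∀ t, ∃ f par, IsPot G t f par ∧ ∀ s, f s ≤ k

variable {V : Type*} {G : SimpleGraph V}

theorem IsPot.pos {t : V} {f : V → ℕ} {par : V → V} (h : IsPot G t f par) {s : V} (hs : s ≠ t) :
    0 < f s := by
  have := (h.step s hs).2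
  omega

theorem IsPot.le_length {t : V} {f : V → ℕ} {par : V → V} (h : IsPot G t f par) {s : V}
    (p : G.Walk s t) : f s ≤ p.length := by
  induction p with
  | nil => simp [h.zero]
  | cons hadj q ih =>
    have h1 := ih h
    have h2 := h.le _ _ hadj
    rw [SimpleGraph.Walk.length_cons]
    omega

theorem IsPot.exists_walk {t : V} {f : V → ℕ} {par : V → V} (h : IsPot G t f par) :
    ∀ (k : ℕ) (s : V), f s = k → ∃ p : G.Walk s t, p.length = k := by
  intro k
  induction k with
  | zero =>
    intro s hs
    have : s = t := by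
      by_contra hne
      have := h.pos hne
      omega
    subst this
    exact ⟨SimpleGraph.Walk.nil, rfl⟩
  | succ k ih =>
    intro s hs
    have hne : s ≠ t := by
      rintro rfl
      rw [h.zero] at hs
      omega
    obtain ⟨h1, h2⟩ := h.step s hne
    obtain ⟨p, hp⟩ := ih (par s) (by omega)
    exact ⟨SimpleGraph.Walk.cons h1 p, by rw [SimpleGraph.Walk.length_cons, hp]⟩

theorem IsPot.eq_walk {t : V} {f : V → ℕ} {par : V → V} (h : IsPot G t f par) {s : V}
    (p q : G.Walk s t) (hp : p.length = f s) (hq : q.length = f s) : p = q := by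
  induction p with
  | nil =>
    cases q with
    | nil => rfl
    | cons hadj q =>
      rw [h.zero, SimpleGraph.Walk.length_cons] at hq
      omega
  | @cons u v w hadj p ih =>
    cases q with
    | nil =>
      rw [h.zero, SimpleGraph.Walk.length_cons] at hp
      omega
    | @cons _ v' _ hadj' q =>
      rw [SimpleGraph.Walk.length_cons] at hp hq
      have h1 := h.le_length p
      have h2 := h.le _ _ hadj
      have h3 := h.le_length q
      have h4 := h.le _ _ hadj'
      have h5 : v = par u := h.uniq _ _ hadj (by omega)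
      have h6 : v' = par u := h.uniq _ _ hadj' (by omega)
      subst h5
      subst h6
      rw [ih h q (by omega) (by omega)]

theorem IsPot.dist_eq {t : V} {f : V → ℕ} {par : V → V} (h : IsPot G t f par) (s : V) :
    G.dist s t = f s := by
  obtain ⟨p, hp⟩ := h.exists_walk (f s) s rfl
  have h1 := SimpleGraph.dist_le p
  obtain ⟨q, hq⟩ := SimpleGraph.Reachable.exists_walk_length_eq_dist ⟨p⟩
  have h2 := h.le_length q
  omega

theorem HasPot.dist_le {k : ℕ} (h : HasPot k G) (s t : V) : G.dist s t ≤ k := by
  obtain ⟨f, par, hf, hk⟩ := h t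
  rw [hf.dist_eq]
  exact hk s

theorem HasPot.geodetic {k : ℕ} [Nonempty V] (h : HasPot k G) : Geodetic G := by
  classical
  constructor
  · rw [SimpleGraph.connected_iff]
    refine ⟨fun u v => ?_, inferInstance⟩
    obtain ⟨f, par, hf, -⟩ := h v
    obtain ⟨p, -⟩ := hf.exists_walk (f u) u rfl
    exact ⟨p⟩
  · intro u v
    obtain ⟨f, par, hf, -⟩ := h v
    obtain ⟨p, hp⟩ := hf.exists_walk (f u) u rfl
    have hd := hf.dist_eq u
    refine ⟨p, ⟨?_, by rw [hp, hd]⟩, fun q hq => ?_⟩
    · refine p.isPath_of_length_eq_dist ?_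
      rw [hp, hd]
    · exact hf.eq_walk q p (by rw [hq.2, hd]) hp

/-! ### Gluing graphs to the vertices of a graph -/

variable {X Y : Type*}

/-- A copy of the graph `T x` is glued to each vertex `x` of `S`, at its vertex `o`. -/
def glue (S : SimpleGraph X) (T : X → SimpleGraph Y) (o : Y) : SimpleGraph (X × Y) where
  Adj p q := (p.1 = q.1 ∧ (T p.1).Adj p.2 q.2) ∨ (p.2 = o ∧ q.2 = o ∧ S.Adj p.1 q.1)
  symm := ⟨by
    rintro ⟨x, c⟩ ⟨y, d⟩ (⟨h1, h2⟩ | ⟨h1, h2, h3⟩)
    · simp only at h1
      subst h1
      exact Or.inl ⟨rfl, h2.symm⟩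
    · exact Or.inr ⟨h2, h1, h3.symm⟩⟩
  loopless := ⟨by
    rintro ⟨x, c⟩ (⟨h1, h2⟩ | ⟨h1, h2, h3⟩)
    · exact h2.ne rfl
    · exact h3.ne rfl⟩

theorem glue_adj {S : SimpleGraph X} {T : X → SimpleGraph Y} {o : Y} {x y : X} {c d : Y} :
    (glue S T o).Adj (x, c) (y, d) ↔
      (x = y ∧ (T x).Adj c d) ∨ (c = o ∧ d = o ∧ S.Adj x y) := Iff.rfl

theorem HasPot.glue {k m : ℕ} {S : SimpleGraph X} {T : X → SimpleGraph Y} {o : Y}
    (hS : HasPot k S) (hT : ∀ x, HasPot m (T x)) : HasPot (m + k + m) (glue S T o) := by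
  classical
  rintro ⟨y, d⟩
  obtain ⟨fS, pS, hfS, hbS⟩ := hS y
  obtain ⟨fd, pd, hfd, hbd⟩ := hT y d
  choose f0 p0 hf0 hb0 using fun x => hT x o
  refine ⟨fun s => if s.1 = y then fd s.2 else f0 s.1 s.2 + fS s.1 + fd o,
    fun s => if s.1 = y then (y, pd s.2) else if s.2 = o then (pS s.1, o) else
      (s.1, p0 s.1 s.2), ⟨?_, ?_, ?_, ?_⟩, ?_⟩
  · simp [hfd.zero]
  · rintro ⟨x, c⟩ hne
    by_cases hx : x = y
    · subst hx
      have hc : c ≠ d := fun h => hne (by rw [h])
      obtain ⟨h1, h2⟩ := hfd.step c hc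
      simp only [if_true]
      exact ⟨Or.inl ⟨rfl, h1⟩, h2⟩
    · by_cases hc : c = o
      · subst hc
        obtain ⟨h1, h2⟩ := hfS.step x hx
        simp only [if_neg hx, if_true]
        refine ⟨Or.inr ⟨rfl, rfl, h1⟩, ?_⟩
        rw [(hf0 x).zero]
        by_cases hp : pS x = y
        · rw [if_pos hp]
          rw [hp, hfS.zero] at h2
          omega
        · rw [if_neg hp, (hf0 _).zero]
          omega
      · obtain ⟨h1, h2⟩ := (hf0 x).step c hc
        simp only [if_neg hx, if_neg hc]
        refine ⟨Or.inl ⟨rfl, h1⟩, by omega⟩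
  · rintro ⟨x, c⟩ ⟨x', c'⟩ (⟨h1, h2⟩ | ⟨h1, h2, h3⟩)
    · simp only at h1 h2
      subst h1
      by_cases hx : x = y
      · subst hx
        simp only [if_true]
        exact hfd.le _ _ h2
      · simp only [if_neg hx]
        have := (hf0 x).le _ _ h2
        omega
    · simp only at h1 h2 h3
      subst h1
      subst h2
      by_cases hx : x = y
      · subst hx
        have hx' : x' ≠ x := h3.ne'
        simp only [if_true, if_neg hx']
        omega
      · have h4 := hfS.le _ _ h3
        by_cases hx' : x' = y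
        · subst hx'
          simp only [if_neg hx, if_true, (hf0 _).zero]
          rw [hfS.zero] at h4
          omega
        · simp only [if_neg hx, if_neg hx', (hf0 _).zero]
          omega
  · rintro ⟨x, c⟩ ⟨x', c'⟩ (⟨h1, h2⟩ | ⟨h1, h2, h3⟩)
    · simp only at h1 h2
      subst h1
      by_cases hx : x = y
      · subst hx
        simp only [if_true]
        intro h
        rw [hfd.uniq _ _ h2 h]
      · simp only [if_neg hx]
        intro h
        have h3 := (hf0 x).uniq _ _ h2 (by omega)
        by_cases hc : c = o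
        · subst hc
          rw [(hf0 x).zero] at h
          omega
        · rw [if_neg hc, h3]
    · simp only at h1 h2 h3
      subst h1
      subst h2
      by_cases hx : x = y
      · subst hx
        have hx' : x' ≠ x := h3.ne'
        simp only [if_true, if_neg hx']
        have := hfS.pos hx'
        intro h
        omega
      · by_cases hx' : x' = y
        · subst hx'
          simp only [if_neg hx, if_true, (hf0 _).zero]
          intro h
          have h4 := hfS.uniq _ _ h3 (by rw [hfS.zero]; omega)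
          rw [← h4]
        · simp only [if_neg hx, if_neg hx', (hf0 _).zero, if_true]
          intro h
          have h4 := hfS.uniq _ _ h3 (by omega)
          rw [← h4]
  · rintro ⟨x, c⟩
    have h1 := hbd c
    have h2 := hb0 x c
    have h3 := hbS x
    have h4 := hbd o
    simp only
    split_ifs <;> omega

/-- Potentials are preserved by isomorphisms. -/
theorem HasPot.of_iso {k : ℕ} {G : SimpleGraph X} {H : SimpleGraph Y} (φ : G ≃g H)
    (h : HasPot k H) : HasPot k G := by
  intro t
  obtain ⟨f, par, hf, hk⟩ := h (φ t)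
  refine ⟨fun s => f (φ s), fun s => φ.symm (par (φ s)), ⟨hf.zero, fun s hs => ?_,
    fun s q hq => hf.le _ _ (φ.map_rel_iff.2 hq), fun s q hq h1 => ?_⟩, fun s => hk _⟩
  · obtain ⟨h1, h2⟩ := hf.step (φ s) (fun h => hs (φ.injective h))
    refine ⟨?_, by simpa using h2⟩
    rw [← φ.map_rel_iff]
    simpa using h1
  · have h2 := hf.uniq _ _ (φ.map_rel_iff.2 hq) h1
    rw [← h2]
    simp

end Pool.Agent.H129.Geod
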