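import Pool.Agent.H129.Geod.Skel

/-!
# The geodetic graph of a graph
-/

set_option autoImplicit false

namespace Pool.Agent.H129.Geod

/-- The adjacency test of the three trees with vertices `0, 1, 2, 3`: a star with centre `0`, the path
`0, 1, 2, 3`, and the path `2, 1, 0, 3`. -/
def tB (ty c d : ℕ) : Bool :=
  if ty = 0 then !decide (decide (c = 0) = decide (d = 0))
  else if ty = 1 then decide (c + 1 = d) || decide (d + 1 = c)
  else decide (c + d = 1) || decide (c + d = 3)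

/-- Three trees on four vertices. -/
def tree (ty : Fin 3) : SimpleGraph (Fin 4) where
  Adj c d := tB ty c d = true
  symm := ⟨by revert ty; decide⟩
  loopless := ⟨by revert ty; decide⟩

instance (ty : Fin 3) : DecidableRel (tree ty).Adj := fun c d =>
  inferInstanceAs (Decidable (tB ty c d = true))

/-- The distances in the trees. -/
def dT (ty : Fin 3) (t s : Fin 4) : ℕ :=
  (![![![0, 1, 1, 1], ![1, 0, 2, 2], ![1, 2, 0, 2], ![1, 2, 2, 0]],
    ![![0, 1, 2, 3], ![1, 0, 1, 2], ![2, 1, 0, 1], ![3, 2, 1, 0]],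
    ![![0, 1, 2, 1], ![1, 0, 1, 2], ![2, 1, 0, 3], ![1, 2, 3, 0]]] : Fin 3 → Fin 4 → Fin 4 → ℕ) ty t s

/-- The next vertex on the way to `t`. -/
def pT (ty : Fin 3) (t s : Fin 4) : Fin 4 :=
  (![![![0, 0, 0, 0], ![1, 0, 0, 0], ![2, 0, 0, 0], ![3, 0, 0, 0]],
    ![![0, 0, 1, 2], ![1, 0, 1, 2], ![1, 2, 0, 2], ![1, 2, 3, 0]],
    ![![0, 0, 1, 0], ![1, 0, 1, 0], ![1, 2, 0, 0], ![3, 0, 1, 0]]] :
      Fin 3 → Fin 4 → Fin 4 → Fin 4) ty t s

theorem tree_hasPot (ty : Fin 3) : HasPot 3 (tree ty) := by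
  intro t
  refine ⟨dT ty t, pT ty t, ⟨?_, ?_, ?_, ?_⟩, ?_⟩ <;> revert ty t <;> decide

variable {V W : Type*}

open Classical in
/-- The type of a vertex of the skeleton. -/
noncomputable def ty (G : SimpleGraph V) (p : V × V) : Fin 3 :=
  if p.1 = p.2 then 0 else if G.Adj p.1 p.2 then 1 else 2

/-- The geodetic graph of the graph `G`. -/
noncomputable def geo (G : SimpleGraph V) : SimpleGraph ((V × V) × Fin 4) :=
  glue (skel V) (fun p => tree (ty G p)) 0

theorem geo_hasPot (G : SimpleGraph V) : HasPot 11 (geo G) :=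
  HasPot.glue skel_hasPot fun _ => tree_hasPot _

theorem ty_eq_zero (G : SimpleGraph V) (p : V × V) : ty G p = 0 ↔ p.1 = p.2 := by
  unfold ty
  split_ifs with h1 h2 <;> simp [h1]

theorem ty_eq_one (G : SimpleGraph V) (p : V × V) : ty G p = 1 ↔ G.Adj p.1 p.2 := by
  unfold ty
  split_ifs with h1 h2
  · rw [h1]
    simp
  · simp [h2]
  · simp [h2]

/-- A vertex with exactly one neighbour. -/
def Leaf {X : Type*} (Γ : SimpleGraph X) (z : X) : Prop :=
  ∃ y, Γ.Adj z y ∧ ∀ y', Γ.Adj z y' → y' = y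

/-- A vertex with three neighbours which are leaves. -/
def Branch {X : Type*} (Γ : SimpleGraph X) (z : X) : Prop :=
  ∃ a b c, a ≠ b ∧ a ≠ c ∧ b ≠ c ∧ (Γ.Adj z a ∧ Leaf Γ a) ∧ (Γ.Adj z b ∧ Leaf Γ b) ∧
    (Γ.Adj z c ∧ Leaf Γ c)

theorem Leaf.map {X Y : Type*} {Γ : SimpleGraph X} {Δ : SimpleGraph Y} (φ : Γ ≃g Δ) {z : X}
    (h : Leaf Γ z) : Leaf Δ (φ z) := by
  obtain ⟨y, hy, h⟩ := h
  refine ⟨φ y, φ.map_rel_iff.2 hy, fun y' hy' => ?_⟩
  have h1 : Γ.Adj z (φ.symm y') := by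
    rw [← φ.map_rel_iff]
    simpa using hy'
  rw [← h _ h1]
  simp

theorem Branch.map {X Y : Type*} {Γ : SimpleGraph X} {Δ : SimpleGraph Y} (φ : Γ ≃g Δ) {z : X}
    (h : Branch Γ z) : Branch Δ (φ z) := by
  obtain ⟨a, b, c, hab, hac, hbc, ⟨ha, ha'⟩, ⟨hb, hb'⟩, ⟨hc, hc'⟩⟩ := h
  exact ⟨φ a, φ b, φ c, fun h => hab (φ.injective h), fun h => hac (φ.injective h),
    fun h => hbc (φ.injective h), ⟨φ.map_rel_iff.2 ha, ha'.map φ⟩,
    ⟨φ.map_rel_iff.2 hb, hb'.map φ⟩, ⟨φ.map_rel_iff.2 hc, hc'.map φ⟩⟩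

/-- The leaves of the trees. -/
def lT (ty : Fin 3) (c : Fin 4) : Bool :=
  (![![false, true, true, true], ![false, false, false, true],
    ![false, false, true, true]] : Fin 3 → Fin 4 → Bool) ty c

theorem leaf_iff (G : SimpleGraph V) (p : V × V) (c : Fin 4) :
    Leaf (geo G) (p, c) ↔ lT (ty G p) c = true := by
  constructor
  · rintro ⟨⟨q, d⟩, h, h'⟩
    have hc : c ≠ 0 := by
      rintro rfl
      -- the roots have at least two neighbours
      by_cases hp : p.1 = p.2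
      · have h0 := (ty_eq_zero G p).2 hp
        have h1 := h' (p, 1) (Or.inl ⟨rfl, by simp only [h0]; decide⟩)
        have h2 := h' (p, 2) (Or.inl ⟨rfl, by simp only [h0]; decide⟩)
        rw [← h2] at h1
        simp at h1
      · have h1 := h' ((p.1, p.1), 0) (Or.inr ⟨rfl, rfl, SkRel.inn p.1 p.2 hp⟩)
        have h2 := h' ((p.2, p.1), 0) (Or.inr ⟨rfl, rfl, SkRel.mid p.1 p.2 hp⟩)
        rw [← h2] at h1
        simp only [Prod.mk.injEq, and_true] at h1
        exact hp h1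
    have h1 : ∀ e, (tree (ty G p)).Adj c e → e = d := by
      intro e he
      have := h' (p, e) (Or.inl ⟨rfl, he⟩)
      rw [Prod.mk.injEq] at this
      exact this.2
    have h2 : (tree (ty G p)).Adj c d := by
      rcases h with ⟨h3, h4⟩ | ⟨h3, -, -⟩
      · exact h4
      · exact absurd h3 hc
    clear h h'
    revert h2 h1 hc
    generalize ty G p = t
    revert t c d
    decide
  · intro h
    have h1 : c ≠ 0 ∧ ∃ d, (tree (ty G p)).Adj c d ∧ ∀ e, (tree (ty G p)).Adj c e → e = d := by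
      revert h
      generalize ty G p = t
      revert t c
      decide
    obtain ⟨hc, d, hd, h2⟩ := h1
    refine ⟨(p, d), Or.inl ⟨rfl, hd⟩, ?_⟩
    rintro ⟨q, e⟩ (⟨h3, h4⟩ | ⟨h3, -, -⟩)
    · simp only at h3 h4
      subst h3
      rw [h2 e h4]
    · exact absurd h3 hc

theorem three_leaves : ∀ (t : Fin 3) (c x y z : Fin 4), (tree t).Adj c x ∧ lT t x = true →
    (tree t).Adj c y ∧ lT t y = true → (tree t).Adj c z ∧ lT t z = true →
    x ≠ y ∧ x ≠ z ∧ y ≠ z → t = 0 ∧ c = 0 := by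
  decide

theorem branch_iff (G : SimpleGraph V) (p : V × V) (c : Fin 4) :
    Branch (geo G) (p, c) ↔ p.1 = p.2 ∧ c = 0 := by
  have key : ∀ z : (V × V) × Fin 4, (geo G).Adj (p, c) z → Leaf (geo G) z →
      z.1 = p ∧ (tree (ty G p)).Adj c z.2 ∧ lT (ty G p) z.2 = true := by
    rintro ⟨q, d⟩ h hl
    rw [leaf_iff] at hl
    rcases h with ⟨h1, h2⟩ | ⟨-, h1, -⟩
    · simp only at h1 h2
      subst h1
      exact ⟨rfl, h2, hl⟩
    · simp only at h1
      subst h1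
      exfalso
      revert hl
      generalize ty G q = t
      revert t
      decide
  constructor
  · rintro ⟨x, y, z, hxy, hxz, hyz, ⟨hx, hx'⟩, ⟨hy, hy'⟩, ⟨hz, hz'⟩⟩
    obtain ⟨x1, x2, x3⟩ := key x hx hx'
    obtain ⟨y1, y2, y3⟩ := key y hy hy'
    obtain ⟨z1, z2, z3⟩ := key z hz hz'
    have hxy' : x.2 ≠ y.2 := fun h => hxy (Prod.ext (x1.trans y1.symm) h)
    have hxz' : x.2 ≠ z.2 := fun h => hxz (Prod.ext (x1.trans z1.symm) h)
    have hyz' : y.2 ≠ z.2 := fun h => hyz (Prod.ext (y1.trans z1.symm) h)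
    rw [← ty_eq_zero G p]
    exact three_leaves _ _ _ _ _ ⟨x2, x3⟩ ⟨y2, y3⟩ ⟨z2, z3⟩ ⟨hxy', hxz', hyz'⟩
  · rintro ⟨h1, rfl⟩
    have h0 := (ty_eq_zero G p).2 h1
    have h2 : ∀ d : Fin 4, d ≠ 0 → (geo G).Adj (p, 0) (p, d) ∧ Leaf (geo G) (p, d) := by
      intro d hd
      constructor
      · refine Or.inl ⟨rfl, ?_⟩
        simp only [h0]
        revert d
        decide
      · rw [leaf_iff, h0]
        revert d
        decide
    refine ⟨(p, 1), (p, 2), (p, 3), by simp, by simp, by simp, h2 1 (by decide), h2 2 (by decide),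
      h2 3 (by decide)⟩

/-- The vertex `(u, v, 0)` is the only one on a short path from `(u, u, 0)` to `(v, v, 0)`. -/
theorem mid_eq (G : SimpleGraph V) {u v : V} (huv : u ≠ v) {z z' : (V × V) × Fin 4}
    (h1 : (geo G).Adj z ((u, u), 0)) (h2 : (geo G).Adj z z')
    (h3 : (geo G).Adj z' ((v, v), 0)) : z = ((u, v), 0) := by
  obtain ⟨⟨x, y⟩, c⟩ := z
  obtain ⟨⟨x', y'⟩, c'⟩ := z'
  rcases h1 with ⟨h1, h1'⟩ | ⟨h1, -, h1'⟩
  · simp only [Prod.mk.injEq] at h1 h1'
    obtain ⟨rfl, rfl⟩ := h1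
    have hc : c ≠ 0 := by
      rintro rfl
      exact h1'.ne rfl
    rcases h2 with ⟨h2, h2'⟩ | ⟨h2, -, -⟩
    · simp only [Prod.mk.injEq] at h2 h2'
      obtain ⟨rfl, rfl⟩ := h2
      rcases h3 with ⟨h3, -⟩ | ⟨-, -, h3⟩
      · simp only [Prod.mk.injEq] at h3
        exact absurd h3.1 huv
      · rw [skel_adj_iff] at h3
        rcases h3 with ⟨h3, -⟩ | ⟨h3, -⟩
        · exact absurd h3 huv
        · exact absurd rfl h3
    · exact absurd h2 hc
  · simp only at h1 h1'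
    subst h1
    rw [skel_adj_iff] at h1'
    have h4 : x = u ∧ x ≠ y := by
      rcases h1' with ⟨h1, ⟨-, h⟩ | ⟨h, -⟩⟩ | ⟨h, h', h''⟩
      · exact absurd rfl h
      · exact ⟨h1, h⟩
      · exact absurd (h''.symm.trans h') h
    obtain ⟨rfl, hxy⟩ := h4
    have h5 : (x' = x ∧ y' = y) ∨ (c' = 0 ∧ ((x' = x ∧ y' = x) ∨ (x' = y ∧ y' = x))) := by
      rcases h2 with ⟨h2, -⟩ | ⟨-, h2, h2'⟩
      · simp only [Prod.mk.injEq] at h2
        exact Or.inl ⟨h2.1.symm, h2.2.symm⟩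
      · simp only at h2 h2'
        rw [skel_adj_iff] at h2'
        rcases h2' with ⟨h6, ⟨h7, -⟩ | ⟨-, h7⟩⟩ | ⟨-, h7, h8⟩
        · exact absurd h7 hxy
        · exact Or.inr ⟨h2, Or.inl ⟨h6.symm, h7.symm.trans h6.symm⟩⟩
        · exact Or.inr ⟨h2, Or.inr ⟨h7, h8⟩⟩
    have h6 : x' = v := by
      rcases h3 with ⟨h3, -⟩ | ⟨-, -, h3⟩
      · simp only [Prod.mk.injEq] at h3
        exact h3.1
      · rw [skel_adj_iff] at h3
        rcases h3 with ⟨h3, -⟩ | ⟨h, h', h''⟩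
        · exact h3
        · exact absurd (h''.symm.trans h') h
    rcases h5 with ⟨h7, -⟩ | ⟨-, ⟨h7, -⟩ | ⟨h7, -⟩⟩
    · exact absurd (h7.symm.trans h6) huv
    · exact absurd (h7.symm.trans h6) huv
    · rw [← h7, h6]

theorem adj_iff_no_leaf (G : SimpleGraph V) {u v : V} (huv : u ≠ v) :
    G.Adj u v ↔ ¬ ∃ z, (geo G).Adj ((u, v), 0) z ∧ Leaf (geo G) z := by
  have h0 : ty G (u, v) ≠ 0 := by
    rw [Ne, ty_eq_zero]
    exact huv
  rw [← ty_eq_one G (u, v)]
  constructor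
  · rintro h ⟨⟨q, d⟩, h1, h2⟩
    rw [leaf_iff] at h2
    rcases h1 with ⟨h1, h3⟩ | ⟨-, h1, -⟩
    · simp only at h1 h3
      subst h1
      rw [h] at h2 h3
      revert d
      decide
    · simp only at h1
      subst h1
      revert h2
      generalize ty G q = t
      revert t
      decide
  · intro h
    by_contra h1
    apply h
    have h2 : ty G (u, v) = 2 := by
      revert h0 h1
      generalize ty G (u, v) = t
      revert t
      decide
    refine ⟨((u, v), 3), Or.inl ⟨rfl, ?_⟩, ?_⟩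
    · simp only [h2]
      decide
    · rw [leaf_iff, h2]
      decide

/-- The base vertex of the image of a branch vertex. -/
def bas {G : SimpleGraph V} {H : SimpleGraph W} (φ : geo G ≃g geo H) (u : V) : W :=
  (φ ((u, u), 0)).1.1

theorem bas_spec {G : SimpleGraph V} {H : SimpleGraph W} (φ : geo G ≃g geo H) (u : V) :
    φ ((u, u), 0) = ((bas φ u, bas φ u), 0) := by
  have h1 : Branch (geo G) ((u, u), 0) := (branch_iff G _ _).2 ⟨rfl, rfl⟩
  have h2 := h1.map φ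
  unfold bas
  generalize φ ((u, u), 0) = z at h2
  obtain ⟨⟨x, y⟩, c⟩ := z
  rw [branch_iff] at h2
  obtain ⟨h3, h4⟩ := h2
  simp only at h3
  rw [← h3, h4]

theorem bas_symm {G : SimpleGraph V} {H : SimpleGraph W} (φ : geo G ≃g geo H) (u : V) :
    bas φ.symm (bas φ u) = u := by
  have h1 := bas_spec φ.symm (bas φ u)
  rw [← bas_spec φ u] at h1
  simp only [RelIso.symm_apply_apply, Prod.mk.injEq, and_true, and_self] at h1
  exact h1.symm

theorem bas_mid {G : SimpleGraph V} {H : SimpleGraph W} (φ : geo G ≃g geo H) {u v : V}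
    (huv : u ≠ v) : φ ((u, v), 0) = ((bas φ u, bas φ v), 0) := by
  have h1 : (geo G).Adj ((u, v), 0) ((u, u), 0) := Or.inr ⟨rfl, rfl, SkRel.inn u v huv⟩
  have h2 : (geo G).Adj ((u, v), 0) ((v, u), 0) := Or.inr ⟨rfl, rfl, SkRel.mid u v huv⟩
  have h3 : (geo G).Adj ((v, u), 0) ((v, v), 0) := Or.inr ⟨rfl, rfl, SkRel.inn v u huv.symm⟩
  have h1' := φ.map_rel_iff.2 h1
  have h2' := φ.map_rel_iff.2 h2
  have h3' := φ.map_rel_iff.2 h3
  rw [bas_spec] at h1' h3'
  refine mid_eq H ?_ h1' h2' h3'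
  intro h
  apply huv
  rw [← bas_symm φ u, ← bas_symm φ v, h]

theorem exists_leaf_iff {G : SimpleGraph V} {H : SimpleGraph W} (φ : geo G ≃g geo H)
    (x : (V × V) × Fin 4) : (∃ z, (geo H).Adj (φ x) z ∧ Leaf (geo H) z) ↔
      ∃ z, (geo G).Adj x z ∧ Leaf (geo G) z := by
  constructor
  · rintro ⟨z, h1, h2⟩
    refine ⟨φ.symm z, ?_, h2.map φ.symm⟩
    rw [← φ.map_rel_iff]
    simpa using h1
  · rintro ⟨z, h1, h2⟩
    exact ⟨φ z, φ.map_rel_iff.2 h1, h2.map φ⟩

/-- The graph can be recovered from its geodetic graph. -/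
theorem iso_of_geo {G : SimpleGraph V} {H : SimpleGraph W} (φ : geo G ≃g geo H) :
    Nonempty (G ≃g H) := by
  refine ⟨⟨⟨bas φ, bas φ.symm, bas_symm φ, fun w => ?_⟩, ?_⟩⟩
  · exact bas_symm φ.symm w
  · intro u v
    simp only [Equiv.coe_fn_mk]
    by_cases huv : u = v
    · subst huv
      simp
    · have h1 : bas φ u ≠ bas φ v := by
        intro h
        apply huv
        rw [← bas_symm φ u, ← bas_symm φ v, h]
      rw [adj_iff_no_leaf G huv, adj_iff_no_leaf H h1, ← bas_mid φ huv, exists_leaf_iff]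

/-- Isomorphic graphs have isomorphic geodetic graphs. -/
theorem geo_of_iso {G : SimpleGraph V} {H : SimpleGraph W} (φ : G ≃g H) :
    Nonempty (geo G ≃g geo H) := by
  have hty : ∀ p : V × V, ty H (φ p.1, φ p.2) = ty G p := by
    intro p
    unfold ty
    by_cases h3 : p.1 = p.2
    · rw [if_pos h3, if_pos (φ.injective.eq_iff.2 h3)]
    · rw [if_neg h3, if_neg (fun h => h3 (φ.injective h))]
      by_cases h4 : G.Adj p.1 p.2
      · rw [if_pos h4, if_pos (φ.map_rel_iff.2 h4)]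
      · rw [if_neg h4, if_neg (fun h => h4 (φ.map_rel_iff.1 h))]
  refine ⟨⟨Equiv.prodCongr (Equiv.prodCongr φ.toEquiv φ.toEquiv) (Equiv.refl _), ?_⟩⟩
  rintro ⟨⟨x, y⟩, c⟩ ⟨⟨x', y'⟩, c'⟩
  have h1 : (geo H).Adj ((φ x, φ y), c) ((φ x', φ y'), c') ↔
      (geo G).Adj ((x, y), c) ((x', y'), c') := by
    unfold geo
    rw [glue_adj, glue_adj, skel_adj_iff, skel_adj_iff]
    have h2 := hty (x, y)
    simp only at h2
    rw [h2]
    simp only [Prod.mk.injEq, ne_eq, φ.injective.eq_iff]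
  exact h1

end Pool.Agent.H129.Geod
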