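import Pool.Agent.H129.UB.Main

/-!
# Classes of graphs whose isomorphism problem is as hard as graph isomorphism
-/

set_option autoImplicit false

namespace Pool.Agent.NPC.GIT129

open Pool.Agent.NPC.UB129 Pool.Agent.NPC.R671

section

variable {N : ℕ → ℕ} (T : ∀ n, SimpleGraph (Fin n) → SimpleGraph (Fin (N n))) {red : Mat → Mat}

/-- The pair of values of a string: invalid strings are mapped to a fixed pair. -/
def gm (red : Mat → Mat) (x : List Bool) : Mat × Mat :=
  (unbits (Mat × Mat) x).elim (red [], red [[false]]) fun p =>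
    bif valid p.1 && valid p.2 then (red p.1, red p.2) else (red [], red [[false]])

theorem poly_gm (hred : Poly red) : Poly (gm red) := by
  unfold gm
  refine Poly.optElim (h := fun _ (p : Mat × Mat) => bif valid p.1 && valid p.2 then
    (red p.1, red p.2) else (red [], red [[false]])) poly_unbits (Poly.const _) ?_
  refine Poly.cond ?_ ?_ (Poly.const _)
  · exact (poly_valid.comp (Poly.fst (Poly.snd Poly.id))).and
      (poly_valid.comp (Poly.snd (Poly.snd Poly.id)))
  · exact Poly.pair (hred.comp (Poly.fst (Poly.snd Poly.id)))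
      (hred.comp (Poly.snd (Poly.snd Poly.id)))

theorem gm_spec (hspec : ∀ n (G : SimpleGraph (Fin n)), red (adjMatrix G) = adjMatrix (T n G))
    (hiso : ∀ n m (G : SimpleGraph (Fin n)) (H : SimpleGraph (Fin m)),
      Nonempty (T n G ≃g T m H) ↔ Nonempty (G ≃g H)) (x : List Bool) :
    ∃ (n m : ℕ) (G : SimpleGraph (Fin n)) (H : SimpleGraph (Fin m)),
      gm red x = (adjMatrix (T n G), adjMatrix (T m H)) ∧
      (x ∈ GI ↔ Nonempty (T n G ≃g T m H)) := by
  have e0 : adjMatrix (⊥ : SimpleGraph (Fin 0)) = [] := by simp [adjMatrix]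
  have e1 : adjMatrix (⊥ : SimpleGraph (Fin 1)) = [[false]] := by simp [adjMatrix]
  have hbad : x ∉ GI → gm red x = (red [], red [[false]]) →
      ∃ (n m : ℕ) (G : SimpleGraph (Fin n)) (H : SimpleGraph (Fin m)),
      gm red x = (adjMatrix (T n G), adjMatrix (T m H)) ∧
      (x ∈ GI ↔ Nonempty (T n G ≃g T m H)) := by
    intro hx hg
    refine ⟨0, 1, ⊥, ⊥, ?_, ?_⟩
    · have h0 := hspec 0 (⊥ : SimpleGraph (Fin 0))
      have h1 := hspec 1 (⊥ : SimpleGraph (Fin 1))
      rw [e0] at h0
      rw [e1] at h1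
      rw [hg, h0, h1]
    · rw [hiso]
      refine iff_of_false hx ?_
      rintro ⟨φ⟩
      exact (φ.symm 0).elim0
  cases hu : unbits (Mat × Mat) x with
  | none =>
    refine hbad ?_ (by unfold gm; rw [hu]; rfl)
    rintro ⟨n, m, G, H, rfl, _⟩
    rw [unbits_bits] at hu
    exact absurd hu (by simp)
  | some p =>
    obtain ⟨M, M'⟩ := p
    have hx := bits_of_unbits hu
    by_cases hv : valid M = true ∧ valid M' = true
    · obtain ⟨n, G, hG⟩ := (valid_iff M).1 hv.1
      obtain ⟨m, H, hH⟩ := (valid_iff M').1 hv.2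
      refine ⟨n, m, G, H, ?_, ?_⟩
      · unfold gm
        rw [hu, Option.elim_some, hv.1, hv.2]
        simp only [Bool.and_self, cond_true]
        rw [← hG, ← hH, hspec, hspec]
      · rw [hiso, ← hx, ← hG, ← hH, mem_GI]
    · refine hbad ?_ ?_
      · rintro ⟨n, m, G, H, h, _⟩
        rw [← hx] at h
        have h1 := bits_injective h
        rw [Prod.mk.injEq] at h1
        exact hv ⟨(valid_iff M).2 ⟨n, G, h1.1.symm⟩, (valid_iff M').2 ⟨m, H, h1.2.symm⟩⟩
      · unfold gm
        rw [hu, Option.elim_some]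
        have : (valid M && valid M') = false := by
          rw [Bool.eq_false_iff]
          intro h
          rw [Bool.and_eq_true] at h
          exact hv h
        simp only [this, cond_false]

/-- If graphs can be encoded in graphs with the property `P`, then the isomorphism problem for graphs
with the property `P` is as hard as graph isomorphism. -/
theorem transfer (P : ∀ n, SimpleGraph (Fin n) → Prop) (hpoly : Poly red)
    (hspec : ∀ n (G : SimpleGraph (Fin n)), red (adjMatrix G) = adjMatrix (T n G))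
    (hiso : ∀ n m (G : SimpleGraph (Fin n)) (H : SimpleGraph (Fin m)),
      Nonempty (T n G ≃g T m H) ↔ Nonempty (G ≃g H)) (hP : ∀ n G, P (N n) (T n G)) :
    (∃ F : List Bool → List Bool, PolyTime F ∧
      ∀ n (G : SimpleGraph (Fin n)), F (bits (adjMatrix G)) = bits (adjMatrix (T n G))) ∧
    ((∃ A : List Bool → List Bool, PolyTime A ∧
        ∀ (n m : ℕ) (G : SimpleGraph (Fin n)) (H : SimpleGraph (Fin m)), P n G → P m H →
          (A (bits (adjMatrix G, adjMatrix H)) = [true] ↔ Nonempty (G ≃g H))) ↔ InP GI) ∧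
    ((∀ L : Set (List Bool), InNP L → ∃ g : List Bool → List Bool, PolyTime g ∧
        ∀ x, ∃ (n m : ℕ) (G : SimpleGraph (Fin n)) (H : SimpleGraph (Fin m)), P n G ∧ P m H ∧
          g x = bits (adjMatrix G, adjMatrix H) ∧ (x ∈ L ↔ Nonempty (G ≃g H))) ↔ NPHard GI) := by
  refine ⟨⟨_, polyTime_opt (Poly.optMap (o := unbits Mat) (f := fun _ M => red M)
    poly_unbits (hpoly.comp (Poly.snd Poly.id))), ?_⟩, ?_, ?_⟩
  · intro n G
    simp only [unbits_bits, Option.map_some, hspec]
  · constructor
    · rintro ⟨A, hA, h⟩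
      refine ⟨fun x => A (bits (gm red x)), H642R2.TMSim.polyTime_comp hA
        (polyTime_bits (poly_gm hpoly)), fun x => ?_⟩
      obtain ⟨n, m, G, H, h1, h2⟩ := gm_spec T hspec hiso x
      show x ∈ GI ↔ A (bits (gm red x)) = [true]
      rw [h2, h1, h _ _ _ _ (hP _ _) (hP _ _)]
    · rintro ⟨A, hA, h⟩
      exact ⟨A, hA, fun n m G H _ _ => by rw [← h, mem_GI]⟩
  · constructor
    · intro h L hL
      obtain ⟨g, hg, h1⟩ := h L hL
      refine ⟨g, hg, fun x => ?_⟩
      obtain ⟨n, m, G, H, _, _, h2, h3⟩ := h1 x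
      rw [h2, mem_GI, h3]
    · intro h L hL
      obtain ⟨f, hf, hfL⟩ := h L hL
      have hp : PolyTime (fun x => bits (gm red (f x))) :=
        H642R2.TMSim.polyTime_comp (g := fun x => bits (gm red x)) (f := f)
          (polyTime_bits (poly_gm hpoly)) hf
      refine ⟨fun x => bits (gm red (f x)), hp, fun x => ?_⟩
      obtain ⟨n, m, G, H, h1, h2⟩ := gm_spec T hspec hiso (f x)
      exact ⟨_, _, T n G, T m H, hP _ _, hP _ _, congrArg bits h1, (hfL x).trans h2⟩

end

end Pool.Agent.NPC.GIT129
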