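import Pool.Agent.H129.Geod.Rec
import Pool.Agent.H129.Geod.Transfer

/-!
# The geodetic graph on adjacency matrices
-/

set_option autoImplicit false

namespace Pool.Agent.NPC.GD129

open Pool.Agent.H129.Geod Pool.Agent.NPC.R671 Pool.Agent.NPC.UB129

/-- The vertices are numbered. -/
def decG (n : ℕ) : Fin (n * n * 4) ≃ (Fin n × Fin n) × Fin 4 :=
  finProdFinEquiv.symm.trans (Equiv.prodCongr finProdFinEquiv.symm (Equiv.refl _))

theorem decG_fst {n : ℕ} (s : Fin (n * n * 4)) : (((decG n s).1.1 : Fin n) : ℕ) = s / 4 / n := rfl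

theorem decG_snd {n : ℕ} (s : Fin (n * n * 4)) : (((decG n s).1.2 : Fin n) : ℕ) = s / 4 % n := rfl

theorem decG_trd {n : ℕ} (s : Fin (n * n * 4)) : (((decG n s).2 : Fin 4) : ℕ) = s % 4 := rfl

/-- The number of vertices of the geodetic graph of a graph with `n` vertices. -/
def NN : ℕ → ℕ
  | 0 => 1
  | n + 1 => (n + 1) * (n + 1) * 4

/-- The geodetic graph of a graph on `{0, ..., n - 1}`, as a graph on `{0, ..., NN n - 1}`. -/
noncomputable def TG : ∀ n, SimpleGraph (Fin n) → SimpleGraph (Fin (NN n))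
  | 0, _ => ⊥
  | n + 1, G => (geo G).comap (decG (n + 1))

theorem TG_hasPot (n : ℕ) (G : SimpleGraph (Fin n)) :
    Geodetic (TG n G) ∧ ∀ u v, (TG n G).dist u v ≤ 11 := by
  suffices h : Nonempty (Fin (NN n)) ∧ HasPot 11 (TG n G) by
    obtain ⟨h1, h2⟩ := h
    exact ⟨h2.geodetic, h2.dist_le⟩
  cases n with
  | zero =>
    refine ⟨⟨(0 : Fin 1)⟩, ?_⟩
    intro t
    refine ⟨fun _ => 0, id, ⟨rfl, fun s hs => absurd (Subsingleton.elim (α := Fin 1) s t) hs,
      fun s q _ => Nat.zero_le _, fun s q _ h => absurd h (by simp)⟩, fun _ => Nat.zero_le _⟩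
  | succ n =>
    exact ⟨⟨(decG (n + 1)).symm ((0, 0), 0)⟩,
      HasPot.of_iso (SimpleGraph.Iso.comap (decG (n + 1)) (geo G)) (geo_hasPot G)⟩

theorem NN_inj {m n : ℕ} (h : NN m = NN n) : m = n := by
  cases m with
  | zero =>
    cases n with
    | zero => rfl
    | succ n => simp only [NN] at h; omega
  | succ m =>
    cases n with
    | zero => simp only [NN] at h; omega
    | succ n =>
      simp only [NN] at h
      have h1 : (m + 1) * (m + 1) = (n + 1) * (n + 1) := by omega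
      exact Nat.mul_self_inj.1 h1

theorem TG_iso_iff (n m : ℕ) (G : SimpleGraph (Fin n)) (H : SimpleGraph (Fin m)) :
    Nonempty (TG n G ≃g TG m H) ↔ Nonempty (G ≃g H) := by
  constructor
  · rintro ⟨φ⟩
    have h1 : NN n = NN m := by
      have := Fintype.card_congr φ.toEquiv
      simpa using this
    have h2 := NN_inj h1
    subst h2
    cases n with
    | zero =>
      refine ⟨⟨Equiv.refl _, ?_⟩⟩
      intro a
      exact a.elim0
    | succ n =>
      exact iso_of_geo (((SimpleGraph.Iso.comap (decG (n + 1)) (geo G)).symm.trans φ).trans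
        (SimpleGraph.Iso.comap (decG (n + 1)) (geo H)))
  · rintro ⟨φ⟩
    have h1 : n = m := by
      have := Fintype.card_congr φ.toEquiv
      simpa using this
    subst h1
    cases n with
    | zero => exact ⟨RelIso.refl _⟩
    | succ n =>
      obtain ⟨ψ⟩ := geo_of_iso φ
      exact ⟨((SimpleGraph.Iso.comap (decG (n + 1)) (geo G)).trans ψ).trans
        (SimpleGraph.Iso.comap (decG (n + 1)) (geo H)).symm⟩

/-! ### The matrix -/

/-- The type of a vertex of the skeleton. -/
def tyB (M : Mat) (x y : ℕ) : ℕ := if x = y then 0 else if ent M x y = true then 1 else 2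

/-- The test for adjacency in the skeleton. -/
def skB (x y x' y' : ℕ) : Bool :=
  (decide (x = x') && ((decide (x = y) && !decide (x' = y')) ||
    (!decide (x = y) && decide (x' = y')))) ||
    (!decide (x = y) && (decide (x' = y) && decide (y' = x)))

/-- The test for adjacency. -/
def adG (n : ℕ) (M : Mat) (s t : ℕ) : Bool :=
  (decide (s / 4 = t / 4) && tB (tyB M (s / 4 / n) (s / 4 % n)) (s % 4) (t % 4)) ||
    (decide (s % 4 = 0) && (decide (t % 4 = 0) &&
      skB (s / 4 / n) (s / 4 % n) (t / 4 / n) (t / 4 % n)))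

/-- The adjacency matrix of the geodetic graph. -/
def redG (M : Mat) : Mat :=
  bif decide (M.length = 0) then [[false]] else
    (List.range (M.length * M.length * 4)).map fun s =>
      (List.range (M.length * M.length * 4)).map fun t => adG M.length M s t

theorem tyB_eq {n : ℕ} (G : SimpleGraph (Fin n)) (p : Fin n × Fin n) :
    tyB (adjMatrix G) p.1 p.2 = (ty G p : ℕ) := by
  unfold tyB ty
  by_cases h1 : p.1 = p.2
  · rw [if_pos (by rw [h1]), if_pos h1]
    rfl
  · rw [if_neg (fun h => h1 (Fin.ext h)), if_neg h1]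
    by_cases h2 : G.Adj p.1 p.2
    · rw [if_pos ((ent_adjMatrix G _ _).2 h2), if_pos h2]
      rfl
    · rw [if_neg (fun h => h2 ((ent_adjMatrix G _ _).1 h)), if_neg h2]
      rfl

theorem skB_iff {n : ℕ} (x y x' y' : Fin n) :
    skB x y x' y' = true ↔ (skel (Fin n)).Adj (x, y) (x', y') := by
  rw [skel_adj_iff]
  unfold skB
  simp only [Bool.or_eq_true, Bool.and_eq_true, decide_eq_true_eq, Bool.not_eq_true',
    decide_eq_false_iff_not, Fin.ext_iff, ne_eq]

theorem adG_iff {n : ℕ} (G : SimpleGraph (Fin n)) (s t : Fin (n * n * 4)) :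
    adG n (adjMatrix G) s t = true ↔ (geo G).Adj (decG n s) (decG n t) := by
  have h1 := glue_adj (S := skel (Fin n)) (T := fun p => tree (ty G p)) (o := 0)
    (x := (decG n s).1) (y := (decG n t).1) (c := (decG n s).2) (d := (decG n t).2)
  have h2 : (geo G).Adj (decG n s) (decG n t) ↔ _ := h1
  rw [h2]
  have h3 := skB_iff (decG n s).1.1 (decG n s).1.2 (decG n t).1.1 (decG n t).1.2
  have h4 : ((decG n s).1 = (decG n t).1) ↔ ((s : ℕ) / 4 = (t : ℕ) / 4) := by
    rw [Prod.ext_iff, Fin.ext_iff, Fin.ext_iff, decG_fst, decG_fst, decG_snd, decG_snd]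
    constructor
    · rintro ⟨h5, h6⟩
      rw [← Nat.div_add_mod ((s : ℕ) / 4) n, h5, h6, Nat.div_add_mod]
    · intro h
      rw [h]
      exact ⟨rfl, rfl⟩
  have h5 : (tree (ty G (decG n s).1)).Adj (decG n s).2 (decG n t).2 ↔
      tB (tyB (adjMatrix G) (s / 4 / n) (s / 4 % n)) (s % 4) (t % 4) = true := by
    have h6 := tyB_eq G (decG n s).1
    rw [decG_fst, decG_snd] at h6
    rw [h6]
    exact Iff.rfl
  have h6 : ∀ r : Fin (n * n * 4), (decG n r).2 = 0 ↔ (r : ℕ) % 4 = 0 := by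
    intro r
    rw [Fin.ext_iff, decG_trd]
    rfl
  rw [h4, h5, h6, h6]
  rw [decG_fst, decG_snd, decG_fst, decG_snd] at h3
  unfold adG
  simp only [Bool.or_eq_true, Bool.and_eq_true, decide_eq_true_eq, h3]

theorem redG_adjMatrix (n : ℕ) (G : SimpleGraph (Fin n)) :
    redG (adjMatrix G) = adjMatrix (TG n G) := by
  classical
  unfold redG
  rw [length_adjMatrix]
  cases n with
  | zero =>
    simp only [decide_true, cond_true]
    show [[false]] = adjMatrix (⊥ : SimpleGraph (Fin 1))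
    simp [adjMatrix]
  | succ n =>
    have h0 : decide (n + 1 = 0) = false := by simp
    rw [h0, cond_false]
    conv_rhs => unfold adjMatrix
    refine List.ext_getElem (by simp only [List.length_map, List.length_range, List.length_ofFn]; rfl)
      fun i h1 h2 => ?_
    rw [List.getElem_map, List.getElem_ofFn, List.getElem_range]
    refine List.ext_getElem (by simp only [List.length_map, List.length_range, List.length_ofFn]; rfl)
      fun j h3 h4 => ?_
    rw [List.getElem_map, List.getElem_ofFn, List.getElem_range]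
    have hi : i < (n + 1) * (n + 1) * 4 := by simpa using h1
    have hj : j < (n + 1) * (n + 1) * 4 := by simpa using h3
    refine Bool.eq_iff_iff.2 (Iff.trans ?_ (@decide_eq_true_iff _ (_)).symm)
    exact adG_iff G ⟨i, hi⟩ ⟨j, hj⟩

/-! ### Polynomial time -/

theorem poly_tB : Poly (fun p : ℕ × ℕ × ℕ => tB p.1 p.2.1 p.2.2) := by
  unfold tB
  have h1 : Poly (fun p : ℕ × ℕ × ℕ => !decide (decide (p.2.1 = 0) = decide (p.2.2 = 0))) :=
    (Poly.decide_eq (by fun_prop) (by fun_prop)).not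
  fun_prop

theorem poly_tyB : Poly (fun p : Mat × ℕ × ℕ => tyB p.1 p.2.1 p.2.2) := by
  unfold tyB
  have h : Poly (fun p : Mat × ℕ × ℕ => ent p.1 p.2.1 p.2.2) := poly_ent
  fun_prop

theorem poly_skB : Poly (fun p : (ℕ × ℕ) × (ℕ × ℕ) => skB p.1.1 p.1.2 p.2.1 p.2.2) := by
  unfold skB
  fun_prop

theorem poly_adG : Poly (fun p : (ℕ × Mat) × ℕ × ℕ => adG p.1.1 p.1.2 p.2.1 p.2.2) := by
  unfold adG
  have h1 : Poly (fun p : (ℕ × Mat) × ℕ × ℕ =>
      tyB p.1.2 (p.2.1 / 4 / p.1.1) (p.2.1 / 4 % p.1.1)) :=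
    poly_tyB.comp (f := fun p : (ℕ × Mat) × ℕ × ℕ =>
      (p.1.2, (p.2.1 / 4 / p.1.1), (p.2.1 / 4 % p.1.1))) (by fun_prop)
  have h2 : Poly (fun p : (ℕ × Mat) × ℕ × ℕ =>
      tB (tyB p.1.2 (p.2.1 / 4 / p.1.1) (p.2.1 / 4 % p.1.1)) (p.2.1 % 4) (p.2.2 % 4)) :=
    poly_tB.comp (f := fun p : (ℕ × Mat) × ℕ × ℕ =>
      (tyB p.1.2 (p.2.1 / 4 / p.1.1) (p.2.1 / 4 % p.1.1), p.2.1 % 4, p.2.2 % 4))
      (Poly.pair h1 (by fun_prop))
  have h3 : Poly (fun p : (ℕ × Mat) × ℕ × ℕ =>
      skB (p.2.1 / 4 / p.1.1) (p.2.1 / 4 % p.1.1) (p.2.2 / 4 / p.1.1) (p.2.2 / 4 % p.1.1)) :=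
    poly_skB.comp (f := fun p : (ℕ × Mat) × ℕ × ℕ =>
      ((p.2.1 / 4 / p.1.1, p.2.1 / 4 % p.1.1), (p.2.2 / 4 / p.1.1, p.2.2 / 4 % p.1.1)))
      (by fun_prop)
  have h4 : Poly (fun p : (ℕ × Mat) × ℕ × ℕ => decide (p.2.1 / 4 = p.2.2 / 4)) := by fun_prop
  have h5 : Poly (fun p : (ℕ × Mat) × ℕ × ℕ => decide (p.2.1 % 4 = 0)) := by fun_prop
  have h6 : Poly (fun p : (ℕ × Mat) × ℕ × ℕ => decide (p.2.2 % 4 = 0)) := by fun_prop
  exact (h4.and h2).or (h5.and (h6.and h3))

theorem poly_redG : Poly redG := by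
  unfold redG
  have hu : UPoly (fun M : Mat => M.length * M.length * 4) :=
    (upoly_len.mul upoly_len).mul (UPoly.const 4)
  have h1 : Poly (fun M : Mat => List.range (M.length * M.length * 4)) := hu.range
  have h3 : Poly (fun M : Mat => M.length) := upoly_len.toPoly
  refine Poly.cond ?_ (Poly.const _) ?_
  · exact Poly.decide_eq h3 (Poly.const 0)
  refine Poly.map (F := fun (M : Mat) s => (List.range (M.length * M.length * 4)).map fun t =>
    adG M.length M s t) h1 ?_
  refine Poly.map (l := fun p : Mat × ℕ => List.range (p.1.length * p.1.length * 4))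
    (F := fun (p : Mat × ℕ) t => adG p.1.length p.1 p.2 t)
    (h1.comp (Poly.fst Poly.id)) ?_
  exact poly_adG.comp (f := fun p : (Mat × ℕ) × ℕ => ((p.1.1.length, p.1.1), p.1.2, p.2))
    (Poly.pair (Poly.pair (h3.comp (Poly.fst (Poly.fst Poly.id))) (Poly.fst (Poly.fst Poly.id)))
      (Poly.pair (Poly.snd (Poly.fst Poly.id)) (Poly.snd Poly.id)))

end Pool.Agent.NPC.GD129
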