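import Pool.Agent.H129.Geod.Pot

/-!
# The skeleton: a complete graph with all edges subdivided twice
-/

set_option autoImplicit false

namespace Pool.Agent.H129.Geod

variable {V : Type*}

/-- The relation of the skeleton. -/
inductive SkRel : V × V → V × V → Prop
  | out (x w : V) (h : x ≠ w) : SkRel (x, x) (x, w)
  | inn (x w : V) (h : x ≠ w) : SkRel (x, w) (x, x)
  | mid (x w : V) (h : x ≠ w) : SkRel (x, w) (w, x)

/-- The complete graph on `V` with all edges subdivided twice: the vertex `x` of the complete graph is
`(x, x)`, and the edge `x w` is replaced by the path `(x, x), (x, w), (w, x), (w, w)`. -/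
def skel (V : Type*) : SimpleGraph (V × V) where
  Adj := SkRel
  symm := ⟨by
    intro p q h
    cases h with
    | out x w h => exact SkRel.inn x w h
    | inn x w h => exact SkRel.out x w h
    | mid x w h => exact SkRel.mid w x h.symm⟩
  loopless := ⟨by
    rintro ⟨x, w⟩ h
    cases h with
    | out _ _ h => exact h rfl
    | inn _ _ h => exact h rfl
    | mid _ _ h => exact h rfl⟩

theorem skel_adj_iff (x y x' y' : V) : (skel V).Adj (x, y) (x', y') ↔
    (x = x' ∧ ((x = y ∧ x' ≠ y') ∨ (x ≠ y ∧ x' = y'))) ∨ (x ≠ y ∧ x' = y ∧ y' = x) := by
  constructor
  · intro h
    cases h with
    | out _ _ h => exact Or.inl ⟨rfl, Or.inl ⟨rfl, h⟩⟩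
    | inn _ _ h => exact Or.inl ⟨rfl, Or.inr ⟨h, rfl⟩⟩
    | mid _ _ h => exact Or.inr ⟨h, rfl, rfl⟩
  · rintro (⟨rfl, ⟨rfl, h⟩ | ⟨h, rfl⟩⟩ | ⟨h, rfl, rfl⟩)
    · exact SkRel.out _ _ h
    · exact SkRel.inn _ _ h
    · exact SkRel.mid _ _ h

theorem skel_hasPot : HasPot 5 (skel V) := by
  classical
  rintro ⟨a, b⟩
  by_cases hab : a = b
  · subst hab
    refine ⟨fun s => if s.1 = a then (if s.2 = a then 0 else 1) else if s.2 = a then 2 else
        if s.2 = s.1 then 3 else 4,
      fun s => if s.1 = a then (a, a) else if s.2 = a then (a, s.1) else
        if s.2 = s.1 then (s.1, a) else (s.1, s.1), ⟨?_, ?_, ?_, ?_⟩,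
        fun s => by simp only; split_ifs <;> omega⟩
    · simp
    · rintro ⟨x, w⟩ hne
      simp only
      by_cases h1 : x = a
      · subst h1
        by_cases h2 : w = x
        · subst h2
          exact absurd rfl hne
        · simp only [if_true, if_neg h2]
          exact ⟨SkRel.inn x w (Ne.symm h2), by trivial⟩
      · by_cases h2 : w = a
        · subst h2
          simp only [if_neg h1, if_true]
          refine ⟨SkRel.mid x w h1, by trivial⟩
        · by_cases h3 : w = x
          · subst h3
            simp only [if_neg h1, if_true]
            exact ⟨SkRel.out w a h1, by trivial⟩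
          · simp only [if_neg h1, if_neg h2, if_neg h3, if_true]
            exact ⟨SkRel.inn x w (Ne.symm h3), by trivial⟩
    · rintro p q h
      cases h with
      | out x w h =>
        have h' := h.symm
        simp only
        split_ifs <;> simp_all
      | inn x w h =>
        have h' := h.symm
        simp only
        split_ifs <;> simp_all
      | mid x w h =>
        have h' := h.symm
        simp only
        split_ifs <;> simp_all
    · rintro p q h
      cases h with
      | out x w h =>
        have h' := h.symm
        simp only
        split_ifs <;> simp_all
      | inn x w h =>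
        have h' := h.symm
        simp only
        split_ifs <;> simp_all
      | mid x w h =>
        have h' := h.symm
        simp only
        split_ifs <;> simp_all
  · have hba : b ≠ a := Ne.symm hab
    refine ⟨fun s => if s.1 = a then (if s.2 = b then 0 else if s.2 = a then 1 else 2) else
        if s.1 = b then (if s.2 = a then 1 else if s.2 = b then 2 else 3) else
        if s.2 = a then 3 else if s.2 = b then 4 else if s.2 = s.1 then 4 else 5,
      fun s => if s.1 = a then (if s.2 = a then (a, b) else (a, a)) else
        if s.1 = b then (if s.2 = a then (a, b) else if s.2 = b then (b, a) else (b, b)) else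
        if s.2 = a then (a, s.1) else if s.2 = b then (b, s.1) else
          if s.2 = s.1 then (s.1, a) else (s.1, s.1), ⟨?_, ?_, ?_, ?_⟩,
        fun s => by simp only; split_ifs <;> omega⟩
    · simp
    · rintro ⟨x, w⟩ hne
      simp only
      by_cases h1 : x = a
      · subst h1
        by_cases h2 : w = b
        · subst h2
          exact absurd rfl hne
        · by_cases h3 : w = x
          · subst h3
            simp only [if_true, if_neg h2]
            exact ⟨SkRel.out w b hab, trivial⟩
          · simp only [if_true, if_neg h2, if_neg h3]
            refine ⟨SkRel.inn x w (Ne.symm h3), ?_⟩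
            simp [hab]
      · by_cases h2 : x = b
        · subst h2
          by_cases h3 : w = a
          · subst h3
            simp only [if_true, if_neg h1]
            exact ⟨SkRel.mid x w h1, by trivial⟩
          · by_cases h4 : w = x
            · subst h4
              simp only [if_true, if_neg h1]
              exact ⟨SkRel.out w a h1, by trivial⟩
            · simp only [if_true, if_neg h1, if_neg h3, if_neg h4]
              exact ⟨SkRel.inn x w (Ne.symm h4), by trivial⟩
        · by_cases h3 : w = a
          · subst h3
            simp only [if_true, if_neg h1, if_neg h2]
            refine ⟨SkRel.mid x w h1, ?_⟩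
            simp
          · by_cases h4 : w = b
            · subst h4
              simp only [if_true, if_neg h1, if_neg h2, if_neg h3]
              refine ⟨SkRel.mid x w h2, ?_⟩
              simp
            · by_cases h5 : w = x
              · subst h5
                simp only [if_true, if_neg h1, if_neg h2]
                exact ⟨SkRel.out w a h1, by trivial⟩
              · simp only [if_true, if_neg h1, if_neg h2, if_neg h3, if_neg h4, if_neg h5]
                exact ⟨SkRel.inn x w (Ne.symm h5), trivial⟩
    · rintro p q h
      cases h with
      | out x w h =>
        have h' := h.symm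
        simp only
        split_ifs <;> simp_all
      | inn x w h =>
        have h' := h.symm
        simp only
        split_ifs <;> simp_all
      | mid x w h =>
        have h' := h.symm
        simp only
        split_ifs <;> simp_all
    · rintro p q h
      cases h with
      | out x w h =>
        have h' := h.symm
        simp only
        split_ifs <;> simp_all
      | inn x w h =>
        have h' := h.symm
        simp only
        split_ifs <;> simp_all
      | mid x w h =>
        have h' := h.symm
        simp only
        split_ifs <;> simp_all

end Pool.Agent.H129.Geod
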